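import Pool.Agent.Q78.SG.Sub
import Pool.Agent.Q310.FP.Gen

set_option autoImplicit false

/-!
# Segre's conjecture and prime divisors, for standard forms in the subdivision closure
-/

namespace Pool.Agent.Q78.SG.Seg

open MvPolynomial Pool.Agent.TH167.SHDefs Pool.Agent.Q78.SG.Sub Pool.Agent.Q310.FP

theorem ge_of_system {n d : ℕ} {w : Fin n → ℕ} (h : System d (mults w)) : GE d w :=
  GE.of_open h.expDim

theorem or_system {n : ℕ} (d : ℕ) (w : Fin n → ℕ) (_ : Standard d w) :
    GE d w ∨ ¬ System d (mults w) := by
  by_cases h : System d (mults w)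
  · exact Or.inl (ge_of_system h)
  · exact Or.inr h

end Pool.Agent.Q78.SG.Seg
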