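import Pool.Agent.H248R6.All
import Pool.Agent.TH167.TT.NonSp

set_option autoImplicit false

/-!
# Smooth general members from nonspecial systems, one open set for all degrees

The first part repeats lemmas of `Pool.Agent.Y536.SH.OpenW`, whose imports are not needed here.
-/

namespace Pool.Agent.Q78.SG

open MvPolynomial Pool.Agent.H248R5 Pool.Agent.H248R6

/-- One hypersurface for all degrees and all vectors of multiplicities below a given one. -/
theorem open_allw {K : Type} [Field K] [CharZero K] {n : ℕ} (v : Fin n → ℕ) (hn : 0 < n)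
    (good : ℕ → Prop) (D0 : ℕ)
    (h1 : ∀ e, good (e + 1) → ∀ (L : Type) [Field L] [CharZero L] (P : Fin n → Fin 2 → L),
      AlgebraicIndependent ℚ (fun ij : Fin n × Fin 2 => P ij.1 ij.2) →
      (∀ k, Function.Surjective (ev (Function.update v k (v k + 1)) P (e + 1))) ∧
      Function.Surjective (ev (fun i => v i - 1) P e))
    (h2 : ∃ F : MvPolynomial (Fin n × Fin 2) ℚ, F ≠ 0 ∧ ∀ P : Fin n → Fin 2 → K,
      aeval (fun ij : Fin n × Fin 2 => P ij.1 ij.2) F ≠ 0 → ∀ e, good (e + 1) → ∀ k,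
        Function.Surjective (ev (Function.update v k (v k + 1)) P (e + 1)))
    (h3 : ∃ F : MvPolynomial (Fin n × Fin 2) ℚ, F ≠ 0 ∧ ∀ P : Fin n → Fin 2 → K,
      aeval (fun ij : Fin n × Fin 2 => P ij.1 ij.2) F ≠ 0 → ∀ d, D0 ≤ d →
        Function.Surjective (ev v P d)) :
    ∃ F : MvPolynomial (Fin n × Fin 2) ℚ, F ≠ 0 ∧ ∀ P : Fin n → Fin 2 → K,
      aeval (fun ij : Fin n × Fin 2 => P ij.1 ij.2) F ≠ 0 →
      ∀ w : Fin n → ℕ, (∀ i, w i ≤ v i) → ∀ e, (good (e + 1) ∨ D0 ≤ e) →
        Module.finrank K ↥(forms w P (e + 1)) + ∑ i, (w i + 1).choose 2 = (e + 3).choose 2 ∧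
          GeneralMember (forms w P (e + 1)) (SmoothMember w P) := by
  classical
  obtain ⟨F2, hF2, hF2'⟩ := h2
  obtain ⟨F3, hF3, hF3'⟩ := h3
  have hup : ∀ {L : Type} [Field L] {P : Fin n → Fin 2 → L} {w : Fin n → ℕ} {e : ℕ},
      (∀ i, w i ≤ v i) →
      (∀ k, Function.Surjective (ev (Function.update v k (v k + 1)) P (e + 1))) →
      (∀ k, Function.Surjective (ev (Function.update w k (w k + 1)) P (e + 1))) ∧
      Function.Surjective (ev w P (e + 1)) := by
    intro L _ P w e hw hs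
    have h4 : ∀ k, Function.Surjective (ev (Function.update w k (w k + 1)) P (e + 1)) := by
      intro k
      refine surj_mono (fun i => ?_) (hs k)
      by_cases hi : i = k
      · subst hi
        rw [Function.update_self, Function.update_self]
        have := hw i
        omega
      · rw [Function.update_of_ne hi, Function.update_of_ne hi]
        exact hw i
    refine ⟨h4, surj_mono (fun i => ?_) (h4 ⟨0, hn⟩)⟩
    by_cases hi : i = ⟨0, hn⟩
    · subst hi
      rw [Function.update_self]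
      omega
    · rw [Function.update_of_ne hi]
  have key : ∀ x : (∀ i, Fin (v i + 1)) × Fin D0, ∃ F : MvPolynomial (Fin n × Fin 2) ℚ,
      F ≠ 0 ∧ (good ((x.2 : ℕ) + 1) → ∀ P : Fin n → Fin 2 → K,
        aeval (fun ij : Fin n × Fin 2 => P ij.1 ij.2) F ≠ 0 →
        Module.finrank K ↥(forms (fun i => (x.1 i : ℕ)) P ((x.2 : ℕ) + 1)) +
            ∑ i, ((x.1 i : ℕ) + 1).choose 2 = ((x.2 : ℕ) + 3).choose 2 ∧
          GeneralMember (forms (fun i => (x.1 i : ℕ)) P ((x.2 : ℕ) + 1))
            (SmoothMember (fun i => (x.1 i : ℕ)) P)) := by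
    intro x
    by_cases hx : good ((x.2 : ℕ) + 1)
    · have hw : ∀ i, (fun i => (x.1 i : ℕ)) i ≤ v i := fun i => by
        have := (x.1 i).2
        simp only
        omega
      obtain ⟨F, hF, hF'⟩ := open_main (K := K) (n := n) (e := (x.2 : ℕ))
        (w := fun i => (x.1 i : ℕ))
        (fun L _ _ P hP => by
          obtain ⟨a1, a2⟩ := h1 _ hx L P hP
          obtain ⟨b1, b2⟩ := hup hw a1
          refine ⟨b1, b2, surj_mono (fun i => ?_) a2⟩
          exact Nat.sub_le_sub_right (hw i) 1)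
        ⟨F2, hF2, fun P hP => hup hw (hF2' P hP _ hx)⟩
      exact ⟨F, hF, fun _ => hF'⟩
    · exact ⟨1, one_ne_zero, fun h => absurd h hx⟩
  choose G hG hG' using key
  refine ⟨F2 * F3 * disc ℚ n * ∏ x, G x, mul_ne_zero (mul_ne_zero (mul_ne_zero hF2 hF3)
    (disc_ne ℚ n)) (Finset.prod_ne_zero_iff.2 fun x _ => hG x), fun P hP w hw e he => ?_⟩
  rw [map_mul, map_mul, map_mul, map_prod] at hP
  have hP2 := left_ne_zero_of_mul (left_ne_zero_of_mul (left_ne_zero_of_mul hP))
  have hP3 := right_ne_zero_of_mul (left_ne_zero_of_mul (left_ne_zero_of_mul hP))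
  have hPd := inj_of_disc' (right_ne_zero_of_mul (left_ne_zero_of_mul hP))
  rcases Nat.lt_or_ge e D0 with h0 | h0
  · have hg : good (e + 1) := he.resolve_right (by omega)
    let u : ∀ i, Fin (v i + 1) := fun i => ⟨w i, Nat.lt_succ_of_le (hw i)⟩
    have hx := Finset.prod_ne_zero_iff.1 (right_ne_zero_of_mul hP) (u, (⟨e, h0⟩ : Fin D0))
      (Finset.mem_univ _)
    have h5 := hG' (u, (⟨e, h0⟩ : Fin D0)) hg P hx
    have hu : (fun i => (u i : ℕ)) = w := rfl
    simp only [hu] at h5
    exact h5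
  · have a1 := surj_mono (w := w) hw (hF3' P hP3 e h0)
    have a2 := surj_mono (w := w) hw (hF3' P hP3 (e + 1) (by omega))
    exact ⟨finrank_of_surj a2, general_smooth hPd (finrank_of_surj a1).le⟩

theorem surj_of_exp {K : Type} [Field K] {n : ℕ} {w : Fin n → ℕ} {P : Fin n → Fin 2 → K} {d : ℕ}
    (h : H932R3.ExpDim K w P d) (hd : ∑ i, (w i + 1).choose 2 ≤ (d + 2).choose 2) :
    Function.Surjective (ev w P d) := by
  refine surj_of_ind ?_
  have h1 : Module.finrank K ↥(forms w P d) = (d + 2).choose 2 - ∑ i, (w i + 1).choose 2 := h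
  omega

theorem sum_updw {n : ℕ} (v : Fin n → ℕ) (k : Fin n) :
    ∑ i, (Function.update v k (v k + 1) i + 1).choose 2 = ∑ i, (v i + 1).choose 2 + v k + 1 := by
  classical
  have h1 : ∀ i, (Function.update v k (v k + 1) i + 1).choose 2 =
      (v i + 1).choose 2 + if i = k then v k + 1 else 0 := by
    intro i
    by_cases hi : i = k
    · subst hi
      rw [Function.update_self, if_pos rfl]
      have := two_choose (v i)
      have h2 := two_choose (v i + 1)
      nlinarith
    · rw [Function.update_of_ne hi, if_neg hi, add_zero]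
  rw [Finset.sum_congr rfl fun i _ => h1 i, Finset.sum_add_distrib, Finset.sum_ite_eq',
    if_pos (Finset.mem_univ k), add_assoc]

/-- The vector of the numbers `v i - 1` in the preceding degree. -/
theorem num_w {n e : ℕ} {v : Fin n → ℕ}
    (h : ∑ i, (v i + 1).choose 2 ≤ (e + 3).choose 2) :
    ∑ i, (v i - 1 + 1).choose 2 ≤ (e + 2).choose 2 := by
  have h3 := two_choose (e + 1)
  have h4 := two_choose (e + 2)
  have e3 : e + 1 + 1 = e + 2 := rfl
  have e4 : e + 2 + 1 = e + 3 := rfl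
  rw [e3] at h3
  rw [e4] at h4
  have t : ∀ i, (v i - 1 + 1).choose 2 + v i = (v i + 1).choose 2 := by
    intro i
    rcases Nat.eq_zero_or_pos (v i) with h0 | h0
    · rw [h0]
      rfl
    · obtain ⟨m, hm⟩ : ∃ m, v i = m + 1 := ⟨v i - 1, by omega⟩
      have h1 := two_choose m
      have h2 := two_choose (m + 1)
      rw [hm, Nat.add_sub_cancel]
      nlinarith
  have h5 : ∑ i, (v i - 1 + 1).choose 2 + ∑ i, v i = ∑ i, (v i + 1).choose 2 := by
    rw [← Finset.sum_add_distrib]
    exact Finset.sum_congr rfl fun i _ => t i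
  rcases Nat.le_total (e + 2) (∑ i, v i) with h6 | h6
  · nlinarith
  · have h7 : ∀ i, 2 * (v i - 1 + 1).choose 2 ≤ v i * (e + 1) := by
      intro i
      have h8 : v i ≤ ∑ i, v i :=
        Finset.single_le_sum (fun _ _ => Nat.zero_le _) (Finset.mem_univ i)
      rw [two_choose]
      rcases Nat.eq_zero_or_pos (v i) with h0 | h0
      · rw [h0]
        simp
      · rw [Nat.sub_add_cancel h0]
        exact Nat.mul_le_mul le_rfl (by omega)
    have h9 : 2 * ∑ i, (v i - 1 + 1).choose 2 ≤ (∑ i, v i) * (e + 1) := by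
      rw [Finset.mul_sum, Finset.sum_mul]
      exact Finset.sum_le_sum fun i _ => h7 i
    have h10 : (∑ i, v i) * (e + 1) ≤ (e + 2) * (e + 1) := Nat.mul_le_mul h6 le_rfl
    omega

/-- Independent conditions in all degrees at least the sum of the multiplicities. -/
theorem surj_sum {K : Type} [Field K] {n : ℕ} {P : Fin n → Fin 2 → K}
    (hP : Function.Injective P) (w : Fin n → ℕ) {d : ℕ} (hw : ∑ j, w j ≤ d) :
    Function.Surjective (ev w P d) := by
  refine surj_of_ind ?_
  have h1 := Pool.Agent.TH167.TT.sum_le_dim hP w hw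
  rw [Pool.Agent.W609.CR.vs_eq_forms] at h1
  exact h1

/-- From generic points to an open set: independence. -/
theorem surj_open {n : ℕ} {w : Fin n → ℕ} {d : ℕ}
    (h : ∀ (L : Type) [Field L] [CharZero L] (P : Fin n → Fin 2 → L),
      AlgebraicIndependent ℚ (fun ij : Fin n × Fin 2 => P ij.1 ij.2) →
      Function.Surjective (ev w P d)) :
    ∃ F : MvPolynomial (Fin n × Fin 2) ℚ, F ≠ 0 ∧
      ∀ (K : Type) [Field K] [CharZero K] (P : Fin n → Fin 2 → K),
        aeval (fun ij : Fin n × Fin 2 => P ij.1 ij.2) F ≠ 0 → Function.Surjective (ev w P d) := by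
  obtain ⟨g, F, hF, hg⟩ := Pool.Agent.TH167.SH.dim_gen w d
  obtain ⟨K0, i1, i2, P0, hP0⟩ := Pool.Agent.TH167.SH.exists_generic n
  have h1 := hg K0 P0 (Pool.Agent.TH167.SH.evP_ne hP0 hF)
  have h2 := finrank_of_surj (h K0 P0 hP0)
  rw [Pool.Agent.W609.CR.vs_eq_forms] at h1
  refine ⟨F, hF, fun K _ _ P hP => surj_of_ind ?_⟩
  have h3 := hg K P hP
  rw [Pool.Agent.W609.CR.vs_eq_forms] at h3
  omega

/-- Smooth general members for all classes below `v`, in all good degrees. -/
theorem smooth_fam {n : ℕ} (v : Fin n → ℕ) (hn : 0 < n) (good : ℕ → Prop)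
    (h : ∀ e, good (e + 1) → ∀ (L : Type) [Field L] [CharZero L] (P : Fin n → Fin 2 → L),
      AlgebraicIndependent ℚ (fun ij : Fin n × Fin 2 => P ij.1 ij.2) →
      (∀ k, H932R3.ExpDim L (Function.update v k (v k + 1)) P (e + 1)) ∧
      H932R3.ExpDim L (fun i => v i - 1) P e)
    (hχ : ∀ e, good (e + 1) → ∀ k, ∑ i, (v i + 1).choose 2 + v k + 1 ≤ (e + 3).choose 2)
    {K : Type} [Field K] [CharZero K] :
    ∃ F : MvPolynomial (Fin n × Fin 2) ℚ, F ≠ 0 ∧ ∀ P : Fin n → Fin 2 → K,
      aeval (fun ij : Fin n × Fin 2 => P ij.1 ij.2) F ≠ 0 →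
      ∀ w : Fin n → ℕ, (∀ i, w i ≤ v i) → ∀ e, (good (e + 1) ∨ ∑ i, v i ≤ e) →
        Module.finrank K ↥(forms w P (e + 1)) + ∑ i, (w i + 1).choose 2 = (e + 3).choose 2 ∧
          GeneralMember (forms w P (e + 1)) (SmoothMember w P) := by
  classical
  obtain ⟨F', hF', h'⟩ := Pool.Agent.TH167.TT.inj_fam n
  have hsum : ∀ k, ∑ i, Function.update v k (v k + 1) i ≤ ∑ i, v i + 1 := by
    intro k
    have h1 : ∀ i, Function.update v k (v k + 1) i = v i + if i = k then 1 else 0 := by
      intro i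
      by_cases hi : i = k
      · subst hi
        rw [Function.update_self, if_pos rfl]
      · rw [Function.update_of_ne hi, if_neg hi, add_zero]
    rw [Finset.sum_congr rfl fun i _ => h1 i, Finset.sum_add_distrib, Finset.sum_ite_eq',
      if_pos (Finset.mem_univ k)]
  have hs1 : ∀ e, good (e + 1) → ∀ (L : Type) [Field L] [CharZero L] (P : Fin n → Fin 2 → L),
      AlgebraicIndependent ℚ (fun ij : Fin n × Fin 2 => P ij.1 ij.2) →
      (∀ k, Function.Surjective (ev (Function.update v k (v k + 1)) P (e + 1))) ∧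
      Function.Surjective (ev (fun i => v i - 1) P e) := by
    intro e he L _ _ P hP
    obtain ⟨a1, a2⟩ := h e he L P hP
    have hx := hχ e he
    refine ⟨fun k => surj_of_exp (a1 k) ?_, surj_of_exp a2 (num_w ?_)⟩
    · rw [sum_updw]
      exact hx k
    · have := hx ⟨0, hn⟩
      omega
  have hk : ∀ x : Fin (∑ i, v i) × Fin n, ∃ F : MvPolynomial (Fin n × Fin 2) ℚ, F ≠ 0 ∧
      (good ((x.1 : ℕ) + 1) → ∀ P : Fin n → Fin 2 → K,
        aeval (fun ij : Fin n × Fin 2 => P ij.1 ij.2) F ≠ 0 →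
        Function.Surjective (ev (Function.update v x.2 (v x.2 + 1)) P ((x.1 : ℕ) + 1))) := by
    intro x
    by_cases hx : good ((x.1 : ℕ) + 1)
    · obtain ⟨F, hF, hF1⟩ := surj_open (n := n) (w := Function.update v x.2 (v x.2 + 1))
        (d := (x.1 : ℕ) + 1) fun L _ _ P hP => (hs1 _ hx L P hP).1 x.2
      exact ⟨F, hF, fun _ P hP => hF1 K P hP⟩
    · exact ⟨1, one_ne_zero, fun hg => absurd hg hx⟩
  choose G hG hG' using hk
  refine open_allw (K := K) v hn good (∑ i, v i) hs1
    ⟨F' * ∏ x, G x, mul_ne_zero hF' (Finset.prod_ne_zero_iff.2 fun x _ => hG x),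
      fun P hP e he k => ?_⟩ ⟨F', hF', fun P hP d hd => surj_sum (h' K P hP) v hd⟩
  rw [map_mul, map_prod] at hP
  rcases Nat.lt_or_ge e (∑ i, v i) with h0 | h0
  · exact hG' ((⟨e, h0⟩ : Fin (∑ i, v i)), k) he P
      (Finset.prod_ne_zero_iff.1 (right_ne_zero_of_mul hP) _ (Finset.mem_univ _))
  · exact surj_sum (h' K P (left_ne_zero_of_mul hP)) _ ((hsum k).trans (by omega))

end Pool.Agent.Q78.SG
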