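import Pool.Agent.TH864.DP.Joint

set_option autoImplicit false

/-!
# Anticanonical degrees: different blocks of `M + 4` points
-/

namespace Pool.Agent.Q78.SG.Mix

open Finset Pool.Agent.TH176.Nag Pool.Agent.TH603.Sur Pool.Agent.TH603.Cut Pool.Agent.H932R3
open Pool.Agent.TH864.DP
open Pool.Agent.TH978.S13 (Sc Sc_pos Sc_finite Emp_shift Sur_shift Emp_add Sur_add Emp_units
  Sur_units Emp_plane9 Sur_plane9 Emp_equiv Sur_equiv)

/-- the lattice points of a sector -/
noncomputable def ScF (x : ℝ) (M h : ℕ) : Finset (ℤ × ℤ) :=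
  (Finset.Icc 1 h).biUnion fun l : ℕ =>
    (Finset.Ioc ⌊x * l⌋ (⌊x * l⌋ + M * l)).image fun t : ℤ => (t, (h : ℤ) - l)

theorem card_ScF (x : ℝ) (M h : ℕ) : (ScF x M h).card = M * (h + 1).choose 2 := by
  unfold ScF
  rw [Finset.card_biUnion]
  · have h1 : ∀ l ∈ Finset.Icc 1 h, ((Finset.Ioc ⌊x * l⌋ (⌊x * l⌋ + M * l)).image
        fun t : ℤ => (t, (h : ℤ) - l)).card = M * l := by
      intro l _
      rw [Finset.card_image_of_injective _ fun a b hab => (Prod.mk.inj hab).1, Int.card_Ioc]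
      have : ⌊x * (l : ℝ)⌋ + (M : ℤ) * l - ⌊x * (l : ℝ)⌋ = ((M * l : ℕ) : ℤ) := by
        push_cast
        ring
      rw [this, Int.toNat_natCast]
    rw [Finset.sum_congr rfl h1, ← Finset.mul_sum]
    congr 1
    have h2 : ∀ n : ℕ, ∑ l ∈ Finset.Icc 1 n, l = (n + 1).choose 2 := by
      intro n
      induction n with
      | zero => rfl
      | succ n ih =>
        have h3 : (n + 1 + 1).choose 2 = (n + 1).choose 1 + (n + 1).choose 2 :=
          Nat.choose_succ_succ' (n + 1) 1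
        rw [Nat.choose_one_right] at h3
        rw [Finset.sum_Icc_succ_top (by omega), ih, h3]
        omega
    exact h2 h
  · intro a _ b _ hab
    rw [Function.onFun, Finset.disjoint_left]
    rintro ⟨p, q⟩ hp hq
    rw [Finset.mem_image] at hp hq
    obtain ⟨t, -, ht⟩ := hp
    obtain ⟨t', -, ht'⟩ := hq
    have h1 := (Prod.mk.inj ht).2
    have h2 := (Prod.mk.inj ht').2
    apply hab
    omega

theorem coe_ScF {x : ℝ} (hx : Irrational x) {M : ℕ} (hM : 1 ≤ M) (h : ℕ) :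
    (↑(ScF x M h) : Set (ℤ × ℤ)) = Sc x (x + M) h := by
  have hMR : (1 : ℝ) ≤ M := by exact_mod_cast hM
  ext ⟨t, j⟩
  unfold ScF
  rw [Finset.coe_biUnion]
  simp only [Finset.coe_Icc, Set.mem_Icc, Set.mem_iUnion, Finset.coe_image, Finset.coe_Ioc,
    Set.mem_image, Set.mem_Ioc, Prod.mk.injEq, exists_prop]
  constructor
  · rintro ⟨l, ⟨hl1, hl2⟩, t', ⟨h1, h2⟩, rfl, rfl⟩
    have hl0 : (0 : ℝ) < l := by exact_mod_cast hl1
    have e1 : ((h : ℝ) - (((h : ℤ) - (l : ℤ) : ℤ) : ℝ)) = l := by push_cast; ring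
    refine ⟨by simp only; omega, ?_, ?_⟩
    · show x * ((h : ℝ) - (((h : ℤ) - (l : ℤ) : ℤ) : ℝ)) < t'
      rw [e1]
      exact Int.floor_lt.1 h1
    · show (t' : ℝ) < (x + M) * ((h : ℝ) - (((h : ℤ) - (l : ℤ) : ℤ) : ℝ))
      rw [e1]
      have h3 : (t' : ℝ) ≤ ((⌊x * (l : ℝ)⌋ + M * l : ℤ) : ℝ) := by exact_mod_cast h2
      have h4 : ((⌊x * (l : ℝ)⌋ : ℤ) : ℝ) < x * l := by
        refine lt_of_le_of_ne (Int.floor_le _) ?_
        intro h5
        apply hx
        refine ⟨(⌊x * (l : ℝ)⌋ : ℚ) / l, ?_⟩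
        push_cast
        rw [div_eq_iff hl0.ne']
        exact h5
      push_cast at h3
      linarith
  · intro hp
    have h0 := Sc_pos (by linarith) hp
    obtain ⟨g1, g2, g3⟩ := hp
    simp only at g1 g2 g3 h0
    obtain ⟨l, hl⟩ : ∃ l : ℕ, (l : ℤ) = h - j := by
      have : (0 : ℤ) < h - j := by exact_mod_cast h0
      exact ⟨((h : ℤ) - j).toNat, Int.toNat_of_nonneg this.le⟩
    have e1 : (h : ℝ) - j = l := by
      have : ((l : ℤ) : ℝ) = ((h - j : ℤ) : ℝ) := by rw [hl]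
      push_cast at this
      linarith
    rw [e1] at g2 g3 h0
    have hl1 : 1 ≤ l := by
      have : 0 < l := by exact_mod_cast h0
      exact this
    refine ⟨l, ⟨hl1, by omega⟩, t, ⟨Int.floor_lt.2 g2, ?_⟩, rfl, by omega⟩
    have h2 : (t : ℝ) < x * l + ((M * l : ℤ) : ℝ) := by
      push_cast
      linarith
    have h3 : ((t - M * l : ℤ) : ℝ) < x * l := by
      push_cast at h2 ⊢
      linarith
    have h4 : (t - M * l : ℤ) ≤ ⌊x * (l : ℝ)⌋ := Int.le_floor.2 h3.le
    linarith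

/-- the dichotomy on a block, in a sector -/
theorem block {M : ℕ} (hM : 1 ≤ M) {κ : Type} [Fintype κ] [DecidableEq κ] {w : κ → ℕ} {m : ℕ}
    (hc : Fintype.card κ = M + 4) (hw : ∀ i, w i = m ∨ w i = m + 1) (h : ℕ) :
    Emp w (Sc (KM M - M) (KM M - M + M) h ∪ {((0, (h : ℤ)) : ℤ × ℤ)}) ∨
      Sur w (Sc (KM M - M) (KM M - M + M) h) := by
  have hS := slpKM hM
  have hK0 := hS.K0
  obtain ⟨x, hx⟩ : ∃ x : ℝ, x = KM M - M := ⟨_, rfl⟩
  have hxM : x + M = KM M := by rw [hx]; ring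
  have hd : (((3 * h : ℕ) : ℝ)) / 3 = h := by push_cast; ring
  have hA0 : 0 ≤ KM M * (3 * h : ℕ) / 3 := by positivity
  have hkey : Emp w (Pool.Agent.TH469.SX.Fl 1 (KM M) (KM M * (3 * h : ℕ) / 3) ∪
      {((0, 0) : ℤ × ℤ)}) ∨ Sur w (Pool.Agent.TH469.SX.Fl 1 (KM M) (KM M * (3 * h : ℕ) / 3)) := by
    by_cases h0 : ∃ i, w i = m
    · obtain ⟨i0, hi0⟩ := h0
      exact near_blk hM hc hw hi0 hA0
    · push Not at h0
      have hall : ∀ i, w i = m + 1 := fun i => (hw i).resolve_left (h0 i)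
      have hne : Nonempty κ := Fintype.card_pos_iff.1 (by omega)
      obtain ⟨i0⟩ := hne
      exact near_blk hM hc (fun i => Or.inl (hall i)) (hall i0) hA0
  rw [← hx]
  rcases hkey with hd' | hd'
  · left
    have h1 := Pool.Agent.TH864.SX.Emp_blk hS (d := 3 * h)
      (hd'.mono (Pool.Agent.TH469.SX.Fa_sub 1 (KM M) (3 * h)))
    refine h1.mono ?_
    rintro p (⟨g1, g2, g3⟩ | hp)
    · refine ⟨g1, ?_, ?_⟩
      · rw [hd, ← hx]; exact g2.le
      · rw [hd, ← hxM]; exact g3.le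
    · rw [Set.mem_singleton_iff] at hp
      rw [hp]
      refine ⟨by simp, ?_, ?_⟩
      · rw [hd]; simp
      · rw [hd]; simp
  · right
    have h1 := Pool.Agent.TH469.SX.Sur_bo hS (d := 3 * h) hd'
    refine h1.mono ?_
    rintro p ⟨g1, g2, g3⟩
    rw [hd] at g2 g3
    exact ⟨g1, by rw [hx]; exact g2, by rw [hxM]; exact g3⟩

theorem x_facts {M : ℕ} (hM : 1 ≤ M) : Irrational (KM M - M) ∧ 0 < KM M - M ∧ KM M - M < 3 := by
  have hS := slpKM hM
  obtain ⟨hK1, hK2⟩ := KM_bounds hM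
  exact ⟨hS.irr.sub_natCast M, by linarith, by linarith⟩

theorem block_S {M : ℕ} (hM : 1 ≤ M) {κ : Type} [Fintype κ] [DecidableEq κ] {w : κ → ℕ} {m : ℕ}
    (hc : Fintype.card κ = M + 4) (hw : ∀ i, w i = m ∨ w i = m + 1) {h : ℕ}
    (hle : cond w ≤ M * (h + 1).choose 2) : Sur w (Sc (KM M - M) (KM M - M + M) h) := by
  rcases block hM hc hw h with h1 | h1
  · have h2 : Emp w (Sc (KM M - M) (KM M - M + M) h) := h1.mono Set.subset_union_left
    rw [← coe_ScF (x_facts hM).1 hM] at h2 ⊢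
    refine Pool.Agent.TH603.Sur.Sur_of_Emp 0 (by rw [card_ScF]; simpa using hle) ?_
    exact Emp_emb (ι := κ) (w := w) Sum.inl Sum.inl_injective (fun i => by simp) h2
  · exact h1

theorem block_E {M : ℕ} (hM : 1 ≤ M) {κ : Type} [Fintype κ] [DecidableEq κ] {w : κ → ℕ} {m : ℕ}
    (hc : Fintype.card κ = M + 4) (hw : ∀ i, w i = m ∨ w i = m + 1) {h : ℕ}
    (hlt : M * (h + 1).choose 2 < cond w) :
    Emp w (Sc (KM M - M) (KM M - M + M) h ∪ {((0, (h : ℤ)) : ℤ × ℤ)}) := by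
  rcases block hM hc hw h with h1 | ⟨T, hT, hcard, -⟩
  · exact h1
  · exfalso
    rw [← coe_ScF (x_facts hM).1 hM] at hT
    have h2 := Finset.card_le_card (Finset.coe_subset.1 hT)
    rw [card_ScF] at h2
    omega

/-- one more block -/
def nxt (r : ℕ) (κ : Fin (r + 1) → Type) :
    (Σ j : Fin r, κ j.castSucc) ⊕ κ (Fin.last r) ≃ Σ j : Fin (r + 1), κ j where
  toFun := Sum.elim (fun p => ⟨p.1.castSucc, p.2⟩) (fun y => ⟨Fin.last r, y⟩)
  invFun p := Fin.lastCases (motive := fun j => κ j → (Σ j : Fin r, κ j.castSucc) ⊕ κ (Fin.last r))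
    (fun y => Sum.inr y) (fun j y => Sum.inl ⟨j, y⟩) p.1 p.2
  left_inv := by
    rintro (⟨j, y⟩ | y)
    · simp
    · simp
  right_inv := by
    rintro ⟨j, y⟩
    induction j using Fin.lastCases with
    | last => simp
    | cast j => simp

/-- `r + 1` different blocks, emptiness -/
theorem Emp_sigma {M : ℕ} {x : ℝ} {h : ℕ} (hM : 1 ≤ M) (hx : Irrational x) :
    ∀ (r : ℕ) (κ : Fin (r + 1) → Type) (_ : ∀ j, Finite (κ j)) (w : ∀ j, κ j → ℕ)
      (_ : ∀ j, Emp (w j) (Sc x (x + M) h ∪ {((0, (h : ℤ)) : ℤ × ℤ)})),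
      Emp (fun p : Σ j, κ j => w p.1 p.2)
        (Sc x (x + ((r + 1) * M : ℕ)) h ∪ {((0, (h : ℤ)) : ℤ × ℤ)}) := by
  have hMR : (1 : ℝ) ≤ M := by exact_mod_cast hM
  intro r
  induction r with
  | zero =>
    intro κ _ w hE
    have e1 : x + (((0 + 1) * M : ℕ) : ℝ) = x + M := by push_cast; ring
    rw [e1]
    refine Emp_emb (w := w 0) (fun y => (⟨0, y⟩ : Σ j, κ j)) ?_ (fun _ => le_rfl) (hE 0)
    intro a b hab
    simpa using hab
  | succ r ih =>
    intro κ _ w hE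
    have ih' := ih (fun j => κ j.castSucc) (fun _ => inferInstance) (fun j => w j.castSucc)
      fun j => hE j.castSucc
    have h2 : Emp (w (Fin.last (r + 1))) (Sc (x + (((r + 1) * M : ℕ) : ℤ))
        (x + M + (((r + 1) * M : ℕ) : ℤ)) h) :=
      Emp_shift _ ((hE _).mono Set.subset_union_left)
    have e1 : x + (((r + 1 + 1) * M : ℕ) : ℝ) = x + M + ((((r + 1) * M : ℕ) : ℤ) : ℝ) := by
      push_cast; ring
    have e2 : x + (((r + 1) * M : ℕ) : ℝ) = x + ((((r + 1) * M : ℕ) : ℤ) : ℝ) := by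
      push_cast; ring
    rw [e1]
    rw [e2] at ih'
    have h0 : (0 : ℝ) < ((((r + 1) * M : ℕ) : ℤ) : ℝ) := by
      have : 0 < (r + 1) * M := by positivity
      exact_mod_cast this
    have key := Emp_add (x := x) (y := x + ((((r + 1) * M : ℕ) : ℤ) : ℝ))
      (z := x + M + ((((r + 1) * M : ℕ) : ℤ) : ℝ)) (by linarith) (by linarith) (hx.add_intCast _)
      ih' h2
    refine Emp_emb (nxt (r + 1) κ) (nxt (r + 1) κ).injective ?_ key
    rintro (⟨j, y⟩ | y) <;> exact le_rfl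

/-- `r + 1` different blocks, independence -/
theorem Sur_sigma {M : ℕ} {x : ℝ} {h : ℕ} (hM : 1 ≤ M) :
    ∀ (r : ℕ) (κ : Fin (r + 1) → Type) (i1 : ∀ j, Fintype (κ j)) (w : ∀ j, κ j → ℕ)
      (_ : ∀ j, Sur (w j) (Sc x (x + M) h)),
      Sur (fun p : Σ j, κ j => w p.1 p.2) (Sc x (x + ((r + 1) * M : ℕ)) h) := by
  have hMR : (1 : ℝ) ≤ M := by exact_mod_cast hM
  intro r
  induction r with
  | zero =>
    intro κ _ w hE
    have e1 : x + (((0 + 1) * M : ℕ) : ℝ) = x + M := by push_cast; ring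
    rw [e1]
    refine Sur_equiv (w := w 0) (v := fun p : Σ j, κ j => w p.1 p.2)
      ⟨fun y => ⟨0, y⟩, fun p => Fin.cases (motive := fun j => κ j → κ 0) id
        (fun j => j.elim0) p.1 p.2, fun y => rfl, ?_⟩ (fun _ => rfl) (hE 0)
    rintro ⟨j, y⟩
    obtain rfl : j = 0 := Fin.ext (by
      have := j.2
      simp only [Fin.val_zero]
      omega)
    rfl
  | succ r ih =>
    intro κ _ w hE
    have ih' := ih (fun j => κ j.castSucc) (fun _ => inferInstance) (fun j => w j.castSucc)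
      fun j => hE j.castSucc
    have h2 : Sur (w (Fin.last (r + 1))) (Sc (x + (((r + 1) * M : ℕ) : ℤ))
        (x + M + (((r + 1) * M : ℕ) : ℤ)) h) := Sur_shift _ (hE _)
    have e1 : x + (((r + 1 + 1) * M : ℕ) : ℝ) = x + M + ((((r + 1) * M : ℕ) : ℤ) : ℝ) := by
      push_cast; ring
    have e2 : x + (((r + 1) * M : ℕ) : ℝ) = x + ((((r + 1) * M : ℕ) : ℤ) : ℝ) := by
      push_cast; ring
    rw [e1]
    rw [e2] at ih'
    have h0 : (0 : ℝ) < ((((r + 1) * M : ℕ) : ℤ) : ℝ) := by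
      have : 0 < (r + 1) * M := by positivity
      exact_mod_cast this
    have key := Sur_add (x := x) (y := x + ((((r + 1) * M : ℕ) : ℤ) : ℝ))
      (z := x + M + ((((r + 1) * M : ℕ) : ℤ) : ℝ)) (by linarith) (by linarith) ih' h2
    refine Sur_equiv (nxt (r + 1) κ) ?_ key
    rintro (⟨j, y⟩ | y) <;> rfl

/-- the blocks and the remaining points -/
def split {n r : ℕ} (g : Fin n → Option (Fin r)) :
    (Σ j : Fin r, {i : Fin n // g i = some j}) ⊕ {i : Fin n // g i = none} → Fin n :=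
  Sum.elim (fun p => p.2.1) (fun y => y.1)

theorem split_bij {n r : ℕ} (g : Fin n → Option (Fin r)) : Function.Bijective (split g) := by
  constructor
  · rintro (⟨j, i, hi⟩ | ⟨i, hi⟩) (⟨j', i', hi'⟩ | ⟨i', hi'⟩) h
    · have h1 : i = i' := h
      subst h1
      have h2 : j = j' := Option.some.inj (hi.symm.trans hi')
      subst h2
      rfl
    · have h1 : i = i' := h
      subst h1
      rw [hi] at hi'
      exact absurd hi' (by simp)
    · have h1 : i = i' := h
      subst h1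
      rw [hi] at hi'
      exact absurd hi' (by simp)
    · have h1 : i = i' := h
      subst h1
      rfl
  · intro i
    rcases hi : g i with _ | j
    · exact ⟨Sum.inr ⟨i, hi⟩, rfl⟩
    · exact ⟨Sum.inl ⟨j, i, hi⟩, rfl⟩

theorem mixed_E {n M r k D : ℕ} (hM : 1 ≤ M) (hk : (r + 1) * M + k = 9) {w : Fin n → ℕ}
    (g : Fin n → Option (Fin (r + 1)))
    (hk' : (univ.filter fun i => g i = none).card = k) (hD : ∀ i, g i = none → w i = D)
    {m : Fin (r + 1) → ℕ} (hcard : ∀ j, (univ.filter fun i => g i = some j).card = M + 4)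
    (hm : ∀ j i, g i = some j → w i = m j ∨ w i = m j + 1)
    (hc : ∀ j, M * (D + 1).choose 2 < ∑ i ∈ univ.filter (fun i => g i = some j),
      (w i + 1).choose 2) : Emp w (TZ (3 * D)) := by
  classical
  obtain ⟨hirr, hx0, hx3⟩ := x_facts hM
  have ha : 1 ≤ (r + 1) * M := Nat.mul_pos (Nat.succ_pos r) hM
  have h9 : (KM M - M) + (((r + 1) * M + k : ℕ) : ℝ) = (KM M - M) + 9 := by
    rw [hk]
    push_cast
    ring
  have h1 : ∀ j : Fin (r + 1), Emp (fun y : {i : Fin n // g i = some j} => w y.1)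
      (Sc (KM M - M) (KM M - M + M) D ∪ {((0, (D : ℤ)) : ℤ × ℤ)}) := by
    intro j
    refine block_E hM (m := m j) ?_ (fun y => hm j y.1 y.2) ?_
    · rw [Fintype.card_subtype, hcard j]
    · refine lt_of_lt_of_eq (hc j) ?_
      unfold Pool.Agent.TH603.Sur.cond
      rw [← Finset.sum_subtype_eq_sum_filter]
      simp
  have h2 := Emp_units ha hirr (Emp_sigma hM hirr r _ (fun j => inferInstance) _ h1) k
  rw [h9] at h2
  have h3 := Emp_plane9 hirr hx0 hx3 h2
  have hcn : Fintype.card {i : Fin n // g i = none} = k := by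
    rw [Fintype.card_subtype, hk']
  let e : Fin k ≃ {i : Fin n // g i = none} := (Fintype.equivFinOfCardEq hcn).symm
  refine Emp_emb (fun x => split g (Sum.map id e x)) ?_ ?_ h3
  · intro a b hab
    exact (Sum.map_injective.2 ⟨Function.injective_id, e.injective⟩) ((split_bij g).1 hab)
  · rintro (⟨j, y⟩ | y)
    · exact le_rfl
    · exact (hD _ (e y).2).ge

theorem mixed_S {n M r k D : ℕ} (hM : 1 ≤ M) (hk : (r + 1) * M + k = 9) {w : Fin n → ℕ}
    (g : Fin n → Option (Fin (r + 1)))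
    (hk' : (univ.filter fun i => g i = none).card = k) (hD : ∀ i, g i = none → w i = D)
    {m : Fin (r + 1) → ℕ} (hcard : ∀ j, (univ.filter fun i => g i = some j).card = M + 4)
    (hm : ∀ j i, g i = some j → w i = m j ∨ w i = m j + 1)
    (hc : ∀ j, ∑ i ∈ univ.filter (fun i => g i = some j),
      (w i + 1).choose 2 ≤ M * (D + 1).choose 2) : Sur w (TZ (3 * D)) := by
  classical
  obtain ⟨hirr, hx0, hx3⟩ := x_facts hM
  have ha : 1 ≤ (r + 1) * M := Nat.mul_pos (Nat.succ_pos r) hM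
  have h9 : (KM M - M) + (((r + 1) * M + k : ℕ) : ℝ) = (KM M - M) + 9 := by
    rw [hk]
    push_cast
    ring
  have h1 : ∀ j : Fin (r + 1), Sur (fun y : {i : Fin n // g i = some j} => w y.1)
      (Sc (KM M - M) (KM M - M + M) D) := by
    intro j
    refine block_S hM (m := m j) ?_ (fun y => hm j y.1 y.2) ?_
    · rw [Fintype.card_subtype, hcard j]
    · refine le_of_eq_of_le ?_ (hc j)
      unfold Pool.Agent.TH603.Sur.cond
      rw [← Finset.sum_subtype_eq_sum_filter]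
      simp
  have h2 := Sur_units ha hirr (Sur_sigma hM r _ (fun j => inferInstance) _ h1) k
  rw [h9] at h2
  have h3 := Sur_plane9 hirr hx0 hx3 h2
  have hcn : Fintype.card {i : Fin n // g i = none} = k := by
    rw [Fintype.card_subtype, hk']
  let e : Fin k ≃ {i : Fin n // g i = none} := (Fintype.equivFinOfCardEq hcn).symm
  refine Sur_equiv ((Equiv.sumCongr (Equiv.refl _) e).trans
    (Equiv.ofBijective _ (split_bij g))) ?_ h3
  rintro (⟨j, y⟩ | y)
  · rfl
  · exact (hD _ (e y).2).symm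

end Pool.Agent.Q78.SG.Mix
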