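import Pool.Agent.Q78.SG.Mix
import Pool.Agent.Q78.SG.Gen

set_option autoImplicit false

/-!
# Anticanonical degrees: different blocks of `M + 4` points, the linear systems
-/

namespace Pool.Agent.Q78.SG.Mix

open MvPolynomial Pool.Agent.H248R5 Pool.Agent.H248R6

theorem choose_three (D : ℕ) : (3 * D + 2).choose 2 = 9 * (D + 1).choose 2 + 1 := by
  have h1 := two_choose (3 * D + 1)
  have h2 := two_choose D
  have e : 3 * D + 1 + 1 = 3 * D + 2 := rfl
  rw [e] at h1
  nlinarith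

theorem sum_split {n r : ℕ} (g : Fin n → Option (Fin r)) (f : Fin n → ℕ) :
    ∑ i, f i = ∑ i ∈ Finset.univ.filter (fun i => g i = none), f i +
      ∑ j : Fin r, ∑ i ∈ Finset.univ.filter (fun i => g i = some j), f i := by
  classical
  rw [← Finset.sum_fiberwise (s := Finset.univ) (g := g) (f := f), Fintype.sum_option]

/-- A vector of multiplicities consisting of `k` numbers `D` and `r` blocks of `M + 4` nearly equal
numbers. -/
structure Blocks {n : ℕ} (M r k D : ℕ) (w : Fin n → ℕ) (g : Fin n → Option (Fin r)) : Prop where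
  hM : 1 ≤ M
  hr : 1 ≤ r
  hk : k + r * M = 9
  cardNone : (Finset.univ.filter fun i => g i = none).card = k
  eqNone : ∀ i, g i = none → w i = D
  cardSome : ∀ j, (Finset.univ.filter fun i => g i = some j).card = M + 4
  near : ∀ j, ∃ m : ℕ, ∀ i, g i = some j → w i = m ∨ w i = m + 1

theorem Blocks.mixed {n M r k D : ℕ} {w : Fin n → ℕ} {g : Fin n → Option (Fin r)}
    (h : Blocks M r k D w g) :
    ((∀ j, M * (D + 1).choose 2 < ∑ i ∈ Finset.univ.filter (fun i => g i = some j),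
      (w i + 1).choose 2) → Pool.Agent.TH176.Nag.Emp w (Pool.Agent.TH603.Sur.TZ (3 * D)) ∧
        (3 * D + 2).choose 2 ≤ ∑ i, (w i + 1).choose 2) ∧
    ((∀ j, ∑ i ∈ Finset.univ.filter (fun i => g i = some j), (w i + 1).choose 2 ≤
      M * (D + 1).choose 2) → Pool.Agent.TH603.Sur.Sur w (Pool.Agent.TH603.Sur.TZ (3 * D)) ∧
        ∑ i, (w i + 1).choose 2 ≤ (3 * D + 2).choose 2) := by
  classical
  obtain ⟨hM, hr, hk, h1, h2, h3, h4⟩ := h
  obtain ⟨r, rfl⟩ : ∃ r', r = r' + 1 := ⟨r - 1, by omega⟩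
  choose m hm using h4
  have hk2 : (r + 1) * M + k = 9 := by omega
  have e1 : ∑ i ∈ Finset.univ.filter (fun i => g i = none), (w i + 1).choose 2 =
      k * (D + 1).choose 2 := by
    rw [Finset.sum_congr rfl fun i hi => by rw [h2 i (Finset.mem_filter.1 hi).2],
      Finset.sum_const, h1, smul_eq_mul]
  have e2 := sum_split g fun i => (w i + 1).choose 2
  rw [e1] at e2
  have e3 : 9 * (D + 1).choose 2 = (r + 1) * (M * (D + 1).choose 2) + k * (D + 1).choose 2 := by
    rw [← hk2]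
    ring
  have e4 := choose_three D
  refine ⟨fun hc => ⟨mixed_E hM hk2 g h1 h2 h3 hm hc, ?_⟩,
    fun hc => ⟨mixed_S hM hk2 g h1 h2 h3 hm hc, ?_⟩⟩
  · have h5 : ∑ _j : Fin (r + 1), (M * (D + 1).choose 2 + 1) ≤
        ∑ j : Fin (r + 1), ∑ i ∈ Finset.univ.filter (fun i => g i = some j),
          (w i + 1).choose 2 := Finset.sum_le_sum fun j _ => hc j
    rw [Finset.sum_const, Finset.card_univ, Fintype.card_fin, smul_eq_mul] at h5
    have h6 : (r + 1) * (M * (D + 1).choose 2 + 1) = (r + 1) * (M * (D + 1).choose 2) + (r + 1) := by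
      ring
    omega
  · have h5 : ∑ j : Fin (r + 1), ∑ i ∈ Finset.univ.filter (fun i => g i = some j),
          (w i + 1).choose 2 ≤ ∑ _j : Fin (r + 1), (M * (D + 1).choose 2) :=
      Finset.sum_le_sum fun j _ => hc j
    rw [Finset.sum_const, Finset.card_univ, Fintype.card_fin, smul_eq_mul] at h5
    omega

theorem forms_mono {K : Type} [Field K] {n : ℕ} {w v : Fin n → ℕ} (h : ∀ i, w i ≤ v i)
    (P : Fin n → Fin 2 → K) (d : ℕ) : forms v P d ≤ forms w P d := by
  unfold forms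
  refine inf_le_inf le_rfl ?_
  intro f hf
  rw [Submodule.restrictScalars_mem, Submodule.mem_iInf] at hf ⊢
  exact fun i => Ideal.pow_le_pow_right (h i) (hf i)

/-- The linear systems of the blocks. -/
theorem Blocks.systems {K : Type} [Field K] [CharZero K] {n M r k D : ℕ} {w : Fin n → ℕ}
    {g : Fin n → Option (Fin r)} (h : Blocks M r k D w g) :
    ∃ F : MvPolynomial (Fin n × Fin 2) ℚ, F ≠ 0 ∧ ∀ P : Fin n → Fin 2 → K,
      aeval (fun ij : Fin n × Fin 2 => P ij.1 ij.2) F ≠ 0 →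
      ((∀ j, M * (D + 1).choose 2 < ∑ i ∈ Finset.univ.filter (fun i => g i = some j),
        (w i + 1).choose 2) → ∀ d ≤ 3 * D, ∀ v : Fin n → ℕ, (∀ i, w i ≤ v i) →
          forms v P d = ⊥ ∧ (d + 2).choose 2 ≤ ∑ i, (v i + 1).choose 2) ∧
      ((∀ j, ∑ i ∈ Finset.univ.filter (fun i => g i = some j), (w i + 1).choose 2 ≤
        M * (D + 1).choose 2) → ∀ d, 3 * D ≤ d → ∀ u : Fin n → ℕ, (∀ i, u i ≤ w i) →
          Module.finrank K ↥(forms u P d) + ∑ i, (u i + 1).choose 2 = (d + 2).choose 2 ∧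
          Module.finrank K ↥(forms u P (d + 1)) + ∑ i, (u i + 1).choose 2 = (d + 3).choose 2 ∧
          GeneralMember (forms u P (d + 1)) (SmoothMember u P)) := by
  classical
  obtain ⟨hE, hS⟩ := h.mixed
  by_cases hc1 : ∀ j, M * (D + 1).choose 2 < ∑ i ∈ Finset.univ.filter (fun i => g i = some j),
      (w i + 1).choose 2
  · obtain ⟨h1, h2⟩ := hE hc1
    obtain ⟨F, hF, hF'⟩ := Pool.Agent.TH864.DP.expDim_fam (Or.inl h1)
    refine ⟨F, hF, fun P hP => ⟨fun _ d hd v hv => ?_, fun hc2 => ?_⟩⟩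
    · have h3 : Module.finrank K ↥(forms w P d) = (d + 2).choose 2 - ∑ i, (w i + 1).choose 2 :=
        hF' P hP d (Or.inl ⟨hd, h2⟩)
      have h4 : (d + 2).choose 2 ≤ (3 * D + 2).choose 2 := Nat.choose_le_choose 2 (by omega)
      have hfin : Module.Finite K ↥(forms w P d) := by
        rw [← Pool.Agent.W609.CR.vs_eq_forms]
        exact Pool.Agent.W609.CR.vs_fin (fun j => Pool.Agent.W609.CR.aff (P j)) w d
      have h5 : forms w P d = ⊥ := by
        rw [← Submodule.finrank_eq_zero (R := K)]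
        omega
      refine ⟨le_bot_iff.1 ((forms_mono hv P d).trans h5.le), h4.trans (h2.trans ?_)⟩
      exact Finset.sum_le_sum fun i _ => Nat.choose_le_choose 2 (Nat.succ_le_succ (hv i))
    · exfalso
      have h3 := hc1 ⟨0, h.hr⟩
      have h4 := hc2 ⟨0, h.hr⟩
      omega
  · by_cases hc2 : ∀ j, ∑ i ∈ Finset.univ.filter (fun i => g i = some j), (w i + 1).choose 2 ≤
        M * (D + 1).choose 2
    · obtain ⟨h1, h2⟩ := hS hc2
      obtain ⟨F, hF, hF'⟩ := Pool.Agent.TH864.DP.expDim_fam (Or.inr h1)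
      obtain ⟨F1, hF1, hF1'⟩ := Pool.Agent.TH167.TT.inj_fam n
      refine ⟨F * F1, mul_ne_zero hF hF1, fun P hP => ⟨fun h => absurd h hc1,
        fun _ d hd u hu => ?_⟩⟩
      rw [map_mul] at hP
      have h3 : ∀ d, 3 * D ≤ d → Function.Surjective (ev u P d) := fun d hd =>
        surj_mono hu (surj_of_exp (hF' P (left_ne_zero_of_mul hP) d (Or.inr ⟨hd, h2⟩))
          (h2.trans (Nat.choose_le_choose 2 (by omega))))
      have h4 := finrank_of_surj (h3 d hd)
      exact ⟨h4, finrank_of_surj (h3 (d + 1) (by omega)),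
        general_smooth (hF1' K P (right_ne_zero_of_mul hP)) h4.le⟩
    · exact ⟨1, one_ne_zero, fun P _ => ⟨fun h => absurd h hc1, fun h => absurd h hc2⟩⟩

end Pool.Agent.Q78.SG.Mix
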