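import Pool.Agent.Q78.SG.Seg

set_option autoImplicit false

/-!
# Smooth general members for the subdivision closure
-/

namespace Pool.Agent.Q78.SG.Smo

open MvPolynomial Pool.Agent.H248R5 Pool.Agent.H248R6 Pool.Agent.Q78.SG Pool.Agent.Q78.SG.Sub

/-- Independent conditions remain independent in higher degrees, at the same points. -/
theorem surj_up {K : Type} [Field K] {n : ℕ} {w : Fin n → ℕ} {P : Fin n → Fin 2 → K} {e e' : ℕ}
    (h : Function.Surjective (ev w P e)) (he : e ≤ e') : Function.Surjective (ev w P e') := by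
  obtain ⟨k, rfl⟩ : ∃ k, e' = e + k := ⟨e' - e, by omega⟩
  intro y
  obtain ⟨H, hH⟩ := h y
  have h1 : (X 2 : MvPolynomial (Fin 3) K) ^ k * (H : MvPolynomial (Fin 3) K) ∈
      homogeneousSubmodule (Fin 3) K (e + k) := by
    rw [mem_homogeneousSubmodule, add_comm]
    have h2 : ((X 2 : MvPolynomial (Fin 3) K) ^ k).IsHomogeneous k := by
      have := (isHomogeneous_X K (2 : Fin 3)).pow k
      rwa [one_mul] at this
    exact h2.mul ((mem_homogeneousSubmodule _ _).1 H.2)
  refine ⟨⟨_, h1⟩, ?_⟩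
  rw [← hH]
  funext i
  rw [ev_apply, ev_apply]
  congr 1
  show tau (P i) ((X 2 : MvPolynomial (Fin 3) K) ^ k * (H : MvPolynomial (Fin 3) K)) = _
  have h3 : tau (P i) (X 2 : MvPolynomial (Fin 3) K) = 1 := by
    unfold tau
    rw [aeval_X]
    rfl
  rw [map_mul, map_pow, h3, one_pow, one_mul]

/-- Smooth members in the degrees above a system of the closure. -/
theorem above {K : Type} [Field K] [CharZero K] {n : ℕ} (v : Fin n → ℕ) :
    ∃ F : MvPolynomial (Fin n × Fin 2) ℚ, F ≠ 0 ∧ ∀ P : Fin n → Fin 2 → K,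
      aeval (fun ij : Fin n × Fin 2 => P ij.1 ij.2) F ≠ 0 →
      ∀ e, (∃ d ≤ e, System d (mults v) ∧ ∑ i, (v i + 1).choose 2 ≤ (d + 2).choose 2) →
        ∀ u : Fin n → ℕ, (∀ i, u i ≤ v i) →
        Module.finrank K ↥(forms u P (e + 1)) + ∑ i, (u i + 1).choose 2 = (e + 3).choose 2 ∧
          GeneralMember (forms u P (e + 1)) (SmoothMember u P) := by
  classical
  by_cases h : ∃ d, System d (mults v) ∧ ∑ i, (v i + 1).choose 2 ≤ (d + 2).choose 2
  · obtain ⟨h1, h2⟩ := Nat.find_spec h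
    obtain ⟨F, hF, hF'⟩ := h1.expDim
    obtain ⟨F1, hF1, hF1'⟩ := Pool.Agent.TH167.TT.inj_fam n
    refine ⟨F * F1, mul_ne_zero hF hF1, fun P hP e he u hu => ?_⟩
    rw [map_mul] at hP
    obtain ⟨d, hd, hs, hc⟩ := he
    have h3 : Nat.find h ≤ e := (Nat.find_min' h ⟨hs, hc⟩).trans hd
    have h4 : ∀ e', Nat.find h ≤ e' → Function.Surjective (ev u P e') := fun e' he' =>
      surj_up (surj_mono hu (surj_of_exp (hF' P (left_ne_zero_of_mul hP)) h2)) he'
    exact ⟨finrank_of_surj (h4 (e + 1) (by omega)),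
      general_smooth (hF1' K P (right_ne_zero_of_mul hP)) (finrank_of_surj (h4 e h3)).le⟩
  · exact ⟨1, one_ne_zero, fun P _ e ⟨d, _, hs, hc⟩ => absurd ⟨d, hs, hc⟩ h⟩

/-- Smooth members, from the closure in the same degree. -/
theorem same {K : Type} [Field K] [CharZero K] {n : ℕ} (hn : 0 < n) (v : Fin n → ℕ) :
    ∃ F : MvPolynomial (Fin n × Fin 2) ℚ, F ≠ 0 ∧ ∀ P : Fin n → Fin 2 → K,
      aeval (fun ij : Fin n × Fin 2 => P ij.1 ij.2) F ≠ 0 →
      ∀ e, (System e (mults fun i => v i - 1) ∧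
        ∀ k, System (e + 1) (mults (Function.update v k (v k + 1))) ∧
          ∑ i, (v i + 1).choose 2 + v k + 1 ≤ (e + 3).choose 2) →
        ∀ u : Fin n → ℕ, (∀ i, u i ≤ v i) →
        Module.finrank K ↥(forms u P (e + 1)) + ∑ i, (u i + 1).choose 2 = (e + 3).choose 2 ∧
          GeneralMember (forms u P (e + 1)) (SmoothMember u P) := by
  classical
  obtain ⟨F, hF, hF'⟩ := smooth_fam (K := K) v hn
    (fun m => ∃ e, m = e + 1 ∧ System e (mults fun i => v i - 1) ∧
        ∀ k, System (e + 1) (mults (Function.update v k (v k + 1))) ∧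
          ∑ i, (v i + 1).choose 2 + v k + 1 ≤ (e + 3).choose 2)
    (by
      rintro e ⟨e', he, h1, h2⟩ L _ _ P hP
      obtain rfl : e = e' := by omega
      exact ⟨fun k => Seg.ge_of_system (h2 k).1 L P hP, Seg.ge_of_system h1 L P hP⟩)
    (by
      rintro e ⟨e', he, h1, h2⟩ k
      obtain rfl : e = e' := by omega
      exact (h2 k).2)
  exact ⟨F, hF, fun P hP e he u hu => hF' P hP u hu e (Or.inl ⟨e, rfl, he⟩)⟩

end Pool.Agent.Q78.SG.Smo
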