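import Pool.Agent.Q78.SG.Gen
import Pool.Agent.TH167.SH.Conv

set_option autoImplicit false

/-!
# Standard classes: at most eight multiplicities above two, or few above `m`
-/

namespace Pool.Agent.Q78.SG

open MvPolynomial Pool.Agent.H248R5 Pool.Agent.H248R6 Pool.Agent.TH167.SH Pool.Agent.TH167.TT
  Pool.Agent.W609 Pool.Agent.W609.CR

theorem exp_nine {L : Type} [Field L] [CharZero L] {r d : ℕ} {w : Fin (r + 4) → ℕ}
    (hred : Reduced d w) (h9 : (Finset.univ.filter fun i => 2 < w i).card ≤ 9)
    {P : Fin (r + 4) → Fin 2 → L}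
    (hP : AlgebraicIndependent ℚ (fun ij : Fin (r + 4) × Fin 2 => P ij.1 ij.2)) :
    H932R3.ExpDim L w P d := by
  have h1 := nonsp_gen hred h9 hP
  rw [vs_eq_forms] at h1
  exact h1

theorem exp_few {L : Type} [Field L] [CharZero L] {r d m B : ℕ} (hm : 0 < m)
    (hB : B = 131072 * (4 * m ^ 2 + 8 * m + 5) ^ 4) {w : Fin (r + 4) → ℕ}
    (hred : Reduced d w) (hF : Few m d w)
    (hd : B ≤ d ∨ B + 3 ≤ (Finset.univ.filter fun i => w i ≠ 0).card)
    {P : Fin (r + 4) → Fin 2 → L}
    (hP : AlgebraicIndependent ℚ (fun ij : Fin (r + 4) × Fin 2 => P ij.1 ij.2)) :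
    H932R3.ExpDim L w P d := by
  rcases red_case hm hB hP hF hred with h1 | ⟨h1, h2, -, -⟩
  · rw [vs_eq_forms] at h1
    exact h1
  · exfalso
    omega

/-- At most eight multiplicities larger than two, or few larger than `m`, in degrees larger than
the sum of any three multiplicities. -/
def Good {s : ℕ} (v : Fin s → ℕ) (d : ℕ) : Prop :=
  (∀ i j k : Fin s, i ≠ j → i ≠ k → j ≠ k → v i + v j + v k < d) ∧
  (∀ k, ∑ i, (v i + 1).choose 2 + v k < (d + 2).choose 2) ∧
  ((Finset.univ.filter fun i => 2 < v i).card ≤ 8 ∨
    ∃ m B : ℕ, B = 131072 * (4 * (m + 1) ^ 2 + 8 * (m + 1) + 5) ^ 4 ∧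
      ((Finset.univ.filter fun i => m < v i).card ≤ 5 ∨
        (∑ i, if m < v i then v i else 0) + (4 * (m + 1) ^ 2 + 8 * (m + 1) + 7) ≤ 2 * d) ∧
      (B < d ∨ B + 3 ≤ (Finset.univ.filter fun i => 2 ≤ v i).card))

theorem upd_le {s : ℕ} (v : Fin s → ℕ) (k i : Fin s) :
    v i ≤ Function.update v k (v k + 1) i ∧ Function.update v k (v k + 1) i ≤ v i + 1 := by
  by_cases hi : i = k
  · subst hi
    rw [Function.update_self]
    omega
  · rw [Function.update_of_ne hi]
    omega

theorem good_exp {r e : ℕ} {v : Fin (r + 4) → ℕ} (hg : Good v (e + 1)) {L : Type} [Field L]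
    [CharZero L] {P : Fin (r + 4) → Fin 2 → L}
    (hP : AlgebraicIndependent ℚ (fun ij : Fin (r + 4) × Fin 2 => P ij.1 ij.2)) :
    (∀ k, H932R3.ExpDim L (Function.update v k (v k + 1)) P (e + 1)) ∧
      H932R3.ExpDim L (fun i => v i - 1) P e := by
  classical
  obtain ⟨h1, h2, h3⟩ := hg
  have hr1 : ∀ k, Reduced (e + 1) (Function.update v k (v k + 1)) := by
    intro k i j l hij hil hjl
    have h4 := h1 i j l hij hil hjl
    have a1 : Function.update v k (v k + 1) i = v i + if i = k then 1 else 0 := by
      by_cases hi : i = k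
      · subst hi
        rw [Function.update_self, if_pos rfl]
      · rw [Function.update_of_ne hi, if_neg hi, add_zero]
    have a2 : Function.update v k (v k + 1) j = v j + if j = k then 1 else 0 := by
      by_cases hi : j = k
      · subst hi
        rw [Function.update_self, if_pos rfl]
      · rw [Function.update_of_ne hi, if_neg hi, add_zero]
    have a3 : Function.update v k (v k + 1) l = v l + if l = k then 1 else 0 := by
      by_cases hi : l = k
      · subst hi
        rw [Function.update_self, if_pos rfl]
      · rw [Function.update_of_ne hi, if_neg hi, add_zero]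
    rw [a1, a2, a3]
    by_cases b1 : i = k
    · subst b1
      rw [if_pos rfl, if_neg hij.symm, if_neg hil.symm]
      omega
    · by_cases b2 : j = k
      · subst b2
        rw [if_neg b1, if_pos rfl, if_neg hjl.symm]
        omega
      · rw [if_neg b1, if_neg b2]
        split_ifs <;> omega
  have hr2 : Reduced e (fun i => v i - 1) := by
    intro i j l hij hil hjl
    have h4 := h1 i j l hij hil hjl
    show v i - 1 + (v j - 1) + (v l - 1) ≤ e
    omega
  rcases h3 with h3 | ⟨m, B, hB, h3, h4⟩
  · refine ⟨fun k => exp_nine (hr1 k) ?_ hP, exp_nine hr2 ?_ hP⟩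
    · have h5 : (Finset.univ.filter fun i => 2 < Function.update v k (v k + 1) i) ⊆
          insert k (Finset.univ.filter fun i => 2 < v i) := by
        intro i hi
        rw [Finset.mem_filter] at hi
        rw [Finset.mem_insert, Finset.mem_filter]
        by_cases hik : i = k
        · exact Or.inl hik
        · right
          rw [Function.update_of_ne hik] at hi
          exact hi
      refine (Finset.card_le_card h5).trans ((Finset.card_insert_le _ _).trans ?_)
      omega
    · refine (Finset.card_le_card fun i hi => ?_).trans (h3.trans (by omega))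
      rw [Finset.mem_filter] at hi ⊢
      exact ⟨hi.1, lt_of_lt_of_le hi.2 (Nat.sub_le _ _)⟩
  · have hF1 : ∀ k, Few (m + 1) (e + 1) (Function.update v k (v k + 1)) := by
      intro k
      rcases h3 with h3 | h3
      · left
        refine (Finset.card_le_card fun i hi => ?_).trans h3
        rw [Finset.mem_filter] at hi ⊢
        have := (upd_le v k i).2
        exact ⟨hi.1, by omega⟩
      · right
        have h5 : (∑ i, if m + 1 < Function.update v k (v k + 1) i then
            Function.update v k (v k + 1) i else 0) ≤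
            ∑ i, ((if m < v i then v i else 0) + if i = k then 1 else 0) := by
          refine Finset.sum_le_sum fun i _ => ?_
          by_cases hi : i = k
          · subst hi
            rw [Function.update_self, if_pos rfl]
            split_ifs <;> omega
          · rw [Function.update_of_ne hi, if_neg hi]
            split_ifs <;> omega
        rw [Finset.sum_add_distrib, Finset.sum_ite_eq', if_pos (Finset.mem_univ k)] at h5
        omega
    have hF2 : Few (m + 1) e (fun i => v i - 1) := by
      rcases h3 with h3 | h3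
      · left
        refine (Finset.card_le_card fun i hi => ?_).trans h3
        rw [Finset.mem_filter] at hi ⊢
        exact ⟨hi.1, by
          have h6 : m + 1 < v i - 1 := hi.2
          omega⟩
      · right
        have h5 : (∑ i, if m + 1 < v i - 1 then v i - 1 else 0) ≤
            ∑ i, if m < v i then v i else 0 := by
          refine Finset.sum_le_sum fun i _ => ?_
          split_ifs <;> omega
        show (∑ i, if m + 1 < v i - 1 then v i - 1 else 0) +
          (4 * (m + 1) ^ 2 + 8 * (m + 1) + 5) ≤ 2 * e
        omega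
    refine ⟨fun k => exp_few (Nat.succ_pos m) hB (hr1 k) (hF1 k) ?_ hP,
      exp_few (Nat.succ_pos m) hB hr2 hF2 ?_ hP⟩
    · rcases h4 with h4 | h4
      · left
        omega
      · right
        refine h4.trans (Finset.card_le_card fun i hi => ?_)
        rw [Finset.mem_filter] at hi ⊢
        have := (upd_le v k i).1
        exact ⟨hi.1, by omega⟩
    · rcases h4 with h4 | h4
      · left
        omega
      · right
        refine h4.trans (Finset.card_le_card fun i hi => ?_)
        rw [Finset.mem_filter] at hi ⊢
        refine ⟨hi.1, ?_⟩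
        have := hi.2
        show v i - 1 ≠ 0
        omega

theorem good_smooth {K : Type} [Field K] [CharZero K] {r : ℕ} (v : Fin (r + 4) → ℕ) :
    ∃ F : MvPolynomial (Fin (r + 4) × Fin 2) ℚ, F ≠ 0 ∧ ∀ P : Fin (r + 4) → Fin 2 → K,
      aeval (fun ij : Fin (r + 4) × Fin 2 => P ij.1 ij.2) F ≠ 0 →
      ∀ w : Fin (r + 4) → ℕ, (∀ i, w i ≤ v i) → ∀ d, Good v d →
        Module.finrank K ↥(forms w P d) + ∑ i, (w i + 1).choose 2 = (d + 2).choose 2 ∧
          GeneralMember (forms w P d) (SmoothMember w P) := by
  obtain ⟨F, hF, h⟩ := smooth_fam (K := K) v (by omega) (Good v)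
    (fun e he L _ _ P hP => good_exp he hP)
    (fun e he k => by
      have := he.2.1 k
      have h3 : e + 1 + 2 = e + 3 := rfl
      rw [h3] at this
      omega)
  refine ⟨F, hF, fun P hP w hw d hd => ?_⟩
  obtain ⟨e, rfl⟩ : ∃ e, d = e + 1 := by
    have := hd.1 ⟨0, by omega⟩ ⟨1, by omega⟩ ⟨2, by omega⟩ (by simp) (by simp) (by simp)
    exact ⟨d - 1, by omega⟩
  exact h P hP w hw e (Or.inl hd)

end Pool.Agent.Q78.SG
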