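import Pool.Agent.TH545.SD.Dh
import Pool.Agent.Q78.SG.Std
import Pool.Agent.Q78.SG.MixF

set_option autoImplicit false

/-!
# Subdivisions of standard systems with at most nine multiplicities above two
-/

namespace Pool.Agent.Q78.SG.Sub

open MvPolynomial Pool.Agent.TH545.SD Pool.Agent.H248R5 Pool.Agent.H248R6
open Pool.Agent.H932R3 (ExpDim)

/-- The multiset of the multiplicities. -/
def mults {n : ℕ} (w : Fin n → ℕ) : Multiset ℕ := Multiset.map w Finset.univ.val

/-- The number of conditions. -/
def conditions (v : Multiset ℕ) : ℕ := (v.map fun a => (a + 1).choose 2).sum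

/-- The systems (degree `d`, multiplicities `v`) generated by subdivision from standard systems
with at most nine multiplicities larger than two, or few large ones, and exact boundary systems. -/
inductive System : ℕ → Multiset ℕ → Prop
  | nine {s d : ℕ} (hs : 4 ≤ s) (w : Fin s → ℕ)
      (h3 : ∀ i j k : Fin s, i ≠ j → i ≠ k → j ≠ k → w i + w j + w k ≤ d)
      (h9 : (Finset.univ.filter fun i => 2 < w i).card ≤ 9) : System d (mults w)
  | few {s d m B : ℕ} (hs : 4 ≤ s) (w : Fin s → ℕ)
      (h3 : ∀ i j k : Fin s, i ≠ j → i ≠ k → j ≠ k → w i + w j + w k ≤ d)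
      (hm : 1 ≤ m) (hB : B = 2 ^ 17 * (4 * m ^ 2 + 8 * m + 5) ^ 4)
      (h5 : (Finset.univ.filter fun i => m < w i).card ≤ 5 ∨
        (∑ i, if m < w i then w i else 0) + (4 * m ^ 2 + 8 * m + 5) ≤ 2 * d)
      (hd : B ≤ d ∨ B + 3 ≤ (Finset.univ.filter fun i => w i ≠ 0).card) : System d (mults w)
  | blocks {n M r k D : ℕ} (w : Fin n → ℕ) (g : Fin n → Option (Fin r))
      (hb : Mix.Blocks M r k D w g)
      (hc : (∀ j, ∑ i ∈ Finset.univ.filter (fun i => g i = some j), (w i + 1).choose 2 ≤
          M * (D + 1).choose 2) ∨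
        ∀ j, M * (D + 1).choose 2 < ∑ i ∈ Finset.univ.filter (fun i => g i = some j),
          (w i + 1).choose 2) : System (3 * D) (mults w)
  | one {d b : ℕ} {e : Multiset ℕ} (hb : 1 ≤ b) (h : System d (b ::ₘ e)) :
      System d ({(2 * b - 1) / 4, 2 * b / 4, (2 * b + 1) / 4, (2 * b + 2) / 4} + e)
  | four {d N b : ℕ} {e : Multiset ℕ} (hN : 1 ≤ N) (hb : 1 ≤ b)
      (h : System d (Multiset.replicate N b + e))
      (h' : System d (Multiset.replicate N (b + 1) + e)) :
      System d (N • {b / 2, b / 2, (b + 1) / 2, (b + 1) / 2} + e)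
  | higher {d d' : ℕ} {v : Multiset ℕ} (hd : d' ≤ d) (hc : conditions v ≤ (d' + 2).choose 2)
      (h : System d' v) : System d v
  | lower {d d' : ℕ} {v : Multiset ℕ} (hd : d ≤ d') (hc : (d' + 2).choose 2 ≤ conditions v)
      (h : System d' v) : System d v

/-- From generic points. -/
theorem GD_gen {n : ℕ} {w : Fin n → ℕ} {d : ℕ}
    (h : ∀ (L : Type) [Field L] [CharZero L] (P : Fin n → Fin 2 → L),
      AlgebraicIndependent ℚ (fun ij : Fin n × Fin 2 => P ij.1 ij.2) → ExpDim L w P d) :
    GD d (mults w) := by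
  obtain ⟨K, i1, i2, P, hP⟩ := Pool.Agent.TH167.SH.exists_generic n
  have h1 : GD d (Pool.Agent.TH641.UM.ms w) :=
    GD_of (emp_sur_at (fun i j => hP.ne_zero (i, j)) (h K P hP))
  rw [mults, ms_map w]
  exact @h1

theorem System.gd {d : ℕ} {v : Multiset ℕ} (h : System d v) : GD d v := by
  induction h with
  | @nine s d hs w h3 h9 =>
    obtain ⟨r, rfl⟩ : ∃ r, s = r + 4 := ⟨s - 4, by omega⟩
    exact @GD_gen _ w d fun L _ _ P hP => exp_nine h3 h9 hP
  | @few s d m B hs w h3 hm hB h5 hd =>
    obtain ⟨r, rfl⟩ : ∃ r, s = r + 4 := ⟨s - 4, by omega⟩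
    exact @GD_gen _ w d fun L _ _ P hP => exp_few hm (by rw [hB]; norm_num) h3 h5 hd hP
  | @blocks n M r k D w g hb hc =>
    have h1 : GD (3 * D) (Pool.Agent.TH641.UM.ms w) := by
      apply GD_of
      obtain ⟨h2, h3⟩ := hb.mixed
      rcases hc with hc | hc
      · exact Pool.Agent.TH864.SX.ED_of_or (Or.inr (h3 hc).1)
      · exact Pool.Agent.TH864.SX.ED_of_or (Or.inl (h2 hc).1)
    rw [mults, ms_map w]
    exact @h1
  | one hb _ ih => exact GD.one hb ih
  | four hN hb _ _ ih ih' =>
    rw [← Multiset.nsmul_singleton] at ih ih'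
    exact GD.four hN hb ih ih'
  | higher hd hc _ ih => exact GD.above hd hc ih
  | lower hd hc _ ih => exact GD.below hd hc ih

/-- The systems are nonspecial at general points. -/
theorem System.expDim {n : ℕ} {w : Fin n → ℕ} {d : ℕ} (h : System d (mults w)) :
    ∃ F : MvPolynomial (Fin n × Fin 2) ℚ, F ≠ 0 ∧ ∀ {L : Type} [Field L] [CharZero L]
      (P : Fin n → Fin 2 → L), aeval (fun ij : Fin n × Fin 2 => P ij.1 ij.2) F ≠ 0 →
      ExpDim L w P d := by
  have h1 : GD d (Pool.Agent.TH641.UM.ms w) := by
    rw [← ms_map w]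
    exact h.gd
  exact h1.expDim

theorem mults_append {m n : ℕ} (a : Fin m → ℕ) (b : Fin n → ℕ) :
    mults (Fin.append a b) = mults a + mults b := by
  unfold mults
  rw [ms_map, ms_map, ms_map]
  unfold Pool.Agent.TH641.UM.ms
  rw [Fin.sum_univ_add]
  simp

theorem exists_mults (E : Multiset ℕ) : ∃ (s : ℕ) (u : Fin s → ℕ), mults u = E := by
  obtain ⟨s, u, hu⟩ := exists_fam E
  exact ⟨s, u, by rw [mults, ms_map, hu]⟩

theorem mem_mults {n : ℕ} (w : Fin n → ℕ) (i : Fin n) : w i ∈ mults w :=
  Multiset.mem_map_of_mem w (Finset.mem_univ i)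

theorem mults_sum {t : ℕ} (b : Fin t → ℕ) : mults b = ∑ j, ({b j} : Multiset ℕ) := by
  rw [mults, ms_map]
  rfl

/-- The multiset in which the first `k` numbers are replaced by four halves. -/
def part {t : ℕ} (x b : Fin t → ℕ) (k : ℕ) : Multiset ℕ :=
  ∑ j : Fin t, if (j : ℕ) < k then 4 • ({x j} : Multiset ℕ) else {b j}

theorem append_std {t s d : ℕ} (ht : 3 ≤ t) (x : Fin t → ℕ) (hx : ∀ j, 1 ≤ x j)
    (hd : ∀ i j k : Fin t, i ≠ j → i ≠ k → j ≠ k → 2 * (x i + x j + x k) + 3 ≤ d)
    (b : Fin t → ℕ) (hb : ∀ j, b j = 2 * x j ∨ b j = 2 * x j + 1) (u : Fin s → ℕ)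
    (hu : ∀ i, u i ≤ 2) (i j k : Fin (t + s)) (hij : i ≠ j) (hik : i ≠ k) (hjk : j ≠ k) :
    Fin.append b u i + Fin.append b u j + Fin.append b u k ≤ d := by
  classical
  have hother : ∀ i j : Fin t, ∃ k : Fin t, i ≠ k ∧ j ≠ k := by
    intro i j
    by_contra hcon
    push Not at hcon
    have h1 : (Finset.univ : Finset (Fin t)) ⊆ {i, j} := fun k _ => by
      rw [Finset.mem_insert, Finset.mem_singleton]
      by_contra h2
      push Not at h2
      exact h2.2 (hcon k h2.1.symm).symm
    have h2 := Finset.card_le_card h1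
    rw [Finset.card_univ, Fintype.card_fin] at h2
    have h3 : ({i, j} : Finset (Fin t)).card ≤ 2 := Finset.card_le_two
    omega
  have hb2 : ∀ l : Fin t, b l ≤ 2 * x l + 1 := fun l => by
    rcases hb l with h | h <;> omega
  have F2 : ∀ i j : Fin t, i ≠ j → b i + b j + 2 ≤ d := by
    intro i j hij
    obtain ⟨k, h1, h2⟩ := hother i j
    have h3 := hd i j k hij h1 h2
    have h4 := hx k
    have h5 := hb2 i
    have h6 := hb2 j
    omega
  have F1 : ∀ i : Fin t, b i + 2 + 2 ≤ d := by
    intro i
    obtain ⟨j, h1, -⟩ := hother i i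
    obtain ⟨k, h2, h3⟩ := hother i j
    have h4 := hd i j k h1 h2 h3
    have h5 := hx k
    have h6 := hx j
    have h7 := hb2 i
    omega
  have F0 : 6 ≤ d := by
    have h0 := hd ⟨0, by omega⟩ ⟨1, by omega⟩ ⟨2, by omega⟩ (by simp) (by simp) (by simp)
    have h1 := hx ⟨0, by omega⟩
    have h2 := hx ⟨1, by omega⟩
    omega
  have F3 : ∀ i j k : Fin t, i ≠ j → i ≠ k → j ≠ k → b i + b j + b k ≤ d := by
    intro i j k hij hik hjk
    have h3 := hd i j k hij hik hjk
    have h5 := hb2 i
    have h6 := hb2 j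
    have h7 := hb2 k
    omega
  have e1 : ∀ l : Fin t, Fin.append b u (Fin.castAdd s l) = b l := fun l => Fin.append_left _ _ _
  have e2 : ∀ l : Fin s, Fin.append b u (Fin.natAdd t l) = u l := fun l => Fin.append_right _ _ _
  induction i using Fin.addCases with
  | left i =>
    induction j using Fin.addCases with
    | left j =>
      have hij' : i ≠ j := fun h => hij (by rw [h])
      induction k using Fin.addCases with
      | left k =>
        rw [e1, e1, e1]
        exact F3 i j k hij' (fun h => hik (by rw [h])) (fun h => hjk (by rw [h]))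
      | right k =>
        rw [e1, e1, e2]
        have := F2 i j hij'
        have := hu k
        omega
    | right j =>
      induction k using Fin.addCases with
      | left k =>
        rw [e1, e2, e1]
        have := F2 i k (fun h => hik (by rw [h]))
        have := hu j
        omega
      | right k =>
        rw [e1, e2, e2]
        have := F1 i
        have := hu j
        have := hu k
        omega
  | right i =>
    induction j using Fin.addCases with
    | left j =>
      induction k using Fin.addCases with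
      | left k =>
        rw [e2, e1, e1]
        have := F2 j k (fun h => hjk (by rw [h]))
        have := hu i
        omega
      | right k =>
        rw [e2, e1, e2]
        have := F1 j
        have := hu i
        have := hu k
        omega
    | right j =>
      induction k using Fin.addCases with
      | left k =>
        rw [e2, e2, e1]
        have := F1 k
        have := hu i
        have := hu j
        omega
      | right k =>
        rw [e2, e2, e2]
        have := hu i
        have := hu j
        have := hu k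
        omega

theorem quad_base {t d : ℕ} (ht : 4 ≤ t) (ht9 : t ≤ 9) (x : Fin t → ℕ) (hx : ∀ j, 1 ≤ x j)
    (E : Multiset ℕ) (hE : ∀ a ∈ E, a ≤ 2)
    (hd : ∀ i j k : Fin t, i ≠ j → i ≠ k → j ≠ k → 2 * (x i + x j + x k) + 3 ≤ d)
    (b : Fin t → ℕ) (hb : ∀ j, b j = 2 * x j ∨ b j = 2 * x j + 1) :
    System d (mults b + E) := by
  classical
  obtain ⟨s, u, rfl⟩ := exists_mults E
  have hu : ∀ i, u i ≤ 2 := fun i => hE _ (mem_mults u i)
  rw [← mults_append]
  refine System.nine (by omega) _ (append_std (by omega) x hx hd b hb u hu) ?_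
  refine le_trans (Finset.card_le_card (t := Finset.univ.map (Fin.castAddEmb s)) ?_) ?_
  · intro i hi
    rw [Finset.mem_filter] at hi
    rw [Finset.mem_map]
    induction i using Fin.addCases with
    | left i => exact ⟨i, Finset.mem_univ _, rfl⟩
    | right i =>
      rw [Fin.append_right] at hi
      have := hu i
      omega
  · rw [Finset.card_map, Finset.card_univ, Fintype.card_fin]
    exact ht9

/-- Four points instead of one of twice the multiplicity. -/
theorem System.halve {d x : ℕ} {e : Multiset ℕ} (hx : 1 ≤ x) (h : System d ({2 * x} + e))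
    (h' : System d ({2 * x + 1} + e)) : System d (4 • {x} + e) := by
  have h1 := System.four (N := 1) (b := 2 * x) (e := e) le_rfl (by omega)
    (by simpa using h) (by simpa using h')
  have e1 : 2 * x / 2 = x := by omega
  have e2 : (2 * x + 1) / 2 = x := by omega
  rw [e1, e2, one_smul] at h1
  have e3 : ({x, x, x, x} : Multiset ℕ) = 4 • {x} := by
    rw [Multiset.nsmul_singleton]
    rfl
  rw [e3] at h1
  exact h1

/-- At most nine groups of four equal multiplicities, and any multiplicities at most two. -/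
theorem quad {t d : ℕ} (ht : 4 ≤ t) (ht9 : t ≤ 9) (x : Fin t → ℕ) (hx : ∀ j, 1 ≤ x j)
    (E : Multiset ℕ) (hE : ∀ a ∈ E, a ≤ 2)
    (hd : ∀ i j k : Fin t, i ≠ j → i ≠ k → j ≠ k → 2 * (x i + x j + x k) + 3 ≤ d) :
    ∀ k : ℕ, k ≤ t → ∀ b : Fin t → ℕ, (∀ j, b j = 2 * x j ∨ b j = 2 * x j + 1) →
      System d (part x b k + E) := by
  classical
  intro k
  induction k with
  | zero =>
    intro _ b hb
    have h1 : part x b 0 = mults b := by
      rw [mults_sum]
      unfold part
      exact Finset.sum_congr rfl fun j _ => if_neg (Nat.not_lt_zero _)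
    rw [h1]
    exact quad_base ht ht9 x hx E hE hd b hb
  | succ k ih =>
    intro hk b hb
    obtain ⟨kk, hkk⟩ : ∃ kk : Fin t, (kk : ℕ) = k := ⟨⟨k, by omega⟩, rfl⟩
    obtain ⟨R, hR⟩ : ∃ R : Multiset ℕ, R = ∑ j ∈ Finset.univ.erase kk,
      (if (j : ℕ) < k then 4 • ({x j} : Multiset ℕ) else {b j}) := ⟨_, rfl⟩
    have e1 : part x b (k + 1) = 4 • {x kk} + R := by
      unfold part
      rw [← Finset.add_sum_erase _ _ (Finset.mem_univ kk), if_pos (by omega), hR]
      congr 1
      refine Finset.sum_congr rfl fun j hj => ?_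
      have h2 : j ≠ kk := Finset.ne_of_mem_erase hj
      have h3 : (j : ℕ) ≠ k := fun h => h2 (Fin.ext (h.trans hkk.symm))
      by_cases h4 : (j : ℕ) < k
      · rw [if_pos h4, if_pos (by omega)]
      · rw [if_neg h4, if_neg (by omega)]
    have e2 : ∀ y, part x (Function.update b kk y) k = {y} + R := by
      intro y
      unfold part
      rw [← Finset.add_sum_erase _ _ (Finset.mem_univ kk), if_neg (by omega),
        Function.update_self, hR]
      congr 1
      refine Finset.sum_congr rfl fun j hj => ?_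
      rw [Function.update_of_ne (Finset.ne_of_mem_erase hj)]
    have hup : ∀ y, (y = 2 * x kk ∨ y = 2 * x kk + 1) →
        ∀ j, Function.update b kk y j = 2 * x j ∨ Function.update b kk y j = 2 * x j + 1 := by
      intro y hy j
      by_cases hj : j = kk
      · subst hj
        rw [Function.update_self]
        exact hy
      · rw [Function.update_of_ne hj]
        exact hb j
    have h1 := ih (by omega) (Function.update b kk (2 * x kk)) (hup _ (Or.inl rfl))
    have h2 := ih (by omega) (Function.update b kk (2 * x kk + 1)) (hup _ (Or.inr rfl))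
    rw [e2, add_assoc] at h1 h2
    rw [e1, add_assoc]
    exact System.halve (hx kk) h1 h2

theorem quad_all {t d : ℕ} (ht : 4 ≤ t) (ht9 : t ≤ 9) (x : Fin t → ℕ) (hx : ∀ j, 1 ≤ x j)
    (E : Multiset ℕ) (hE : ∀ a ∈ E, a ≤ 2)
    (hd : ∀ i j k : Fin t, i ≠ j → i ≠ k → j ≠ k → 2 * (x i + x j + x k) + 3 ≤ d) :
    System d (∑ j : Fin t, 4 • ({x j} : Multiset ℕ) + E) := by
  have h1 := quad ht ht9 x hx E hE hd t le_rfl (fun j => 2 * x j) fun j => Or.inl rfl
  have h2 : part x (fun j => 2 * x j) t = ∑ j : Fin t, 4 • ({x j} : Multiset ℕ) := by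
    unfold part
    exact Finset.sum_congr rfl fun j _ => if_pos j.2
  rw [h2] at h1
  exact h1

end Pool.Agent.Q78.SG.Sub
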