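import Mathlib
import Pool.Agent.Q78.SG.Seg

set_option autoImplicit false

/-!
# Prime divisors with `h¹ ≠ 0` have a standard form outside of the subdivision closure

`System d v` (`Pool.Agent.Q78.SG.Sub.System`; degree `d`, multiset `v` of multiplicities) is the
smallest relation which contains

* the standard systems at `≥ 4` points with at most nine multiplicities larger than `2`;
* the standard systems at `≥ 4` points such that, for some `m ≥ 1` and
  `B = 2 ^ 17 (4 m ^ 2 + 8 m + 5) ^ 4`, at most five multiplicities are larger than `m` or those
  larger than `m` have a sum `≤ 2 d - (4 m ^ 2 + 8 m + 5)`, and `d ≥ B` or at least `B + 3`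
  multiplicities are not zero;
* the systems of degree `3 D` with `k` multiplicities `D` and `r` blocks of `M + 4` multiplicities,
  in each block one or two consecutive numbers, `k + r M = 9`, if all blocks have
  `≤ M (D + 1).choose 2` conditions, or all have more;

and is closed under the subdivision of one multiplicity `b` into the integral parts of
`(2 b - 1) / 4, 2 b / 4, (2 b + 1) / 4, (2 b + 2) / 4`, under that of `N` multiplicities into
`b / 2, b / 2, (b + 1) / 2, (b + 1) / 2` each if the systems with `N` multiplicities `b` and with
`N` multiplicities `b + 1` are in it, and under the passage to a larger (smaller) degree if the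
number of conditions is at most (at least) the number of forms.

Let `k` be a field of characteristic zero and `X` the blow-up of the plane at `s ≥ 4` generic
points. Let `C` be a prime divisor of class `(d, w)` on `X`. Then `h¹ (C) = 0`, or finitely many
quadratic transformations carry `(d, w)` to a standard class `(d1, w1)` with
`h⁰ (d1, w1) = h⁰ (C)`, which is special and not in the closure. In particular `h¹ (C) = 0` if the
class of `C` is in the Weyl group orbit of a standard class of the closure.
-/

namespace Pool.Agent.Results.MP_0dccba_ag.PrimeSubdivisions

open MvPolynomial Pool.Agent.TH167.SHDefs Pool.Agent.Q78.SG.Sub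
open Pool.Agent.Q310.FP (Standard)

/-- `h¹` of the class `d H - ∑ w i E i`: the dimension of the linear system minus the virtual one. -/
noncomputable def hOne {k : Type} [Field k] {s : ℕ} (P : Fin s → Fin 2 → k) (d : ℕ)
    (w : Fin s → ℕ) : ℤ := dimL P d w - virtdim d w

theorem result (k : Type) [Field k] [CharZero k] (s : ℕ) (hs : 4 ≤ s) (P : Fin s → Fin 2 → k)
    (hP : AlgebraicIndependent ℚ (fun ij : Fin s × Fin 2 => P ij.1 ij.2)) (d : ℕ)
    (w : Fin s → ℕ) (C : MvPolynomial (Fin 3) k) (hC : Curve P C d w) :
    hOne P d w = 0 ∨ ∃ (d1 : ℕ) (w1 : Fin s → ℕ),
      Relation.ReflTransGen Quadratic (d, w) (d1, w1) ∧ Standard d1 w1 ∧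
      Special P d1 w1 ∧ dimL P d1 w1 = dimL P d w ∧ ¬ System d1 (mults w1) := by
  by_cases h : dimL P d w = virtdim d w
  · left
    unfold hOne
    omega
  · right
    exact Pool.Agent.Q310.FP.prime_rem hs
      (fun d w h => Pool.Agent.Q78.SG.Seg.or_system d w h) hP hC h

end Pool.Agent.Results.MP_0dccba_ag.PrimeSubdivisions
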