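import Mathlib
import Pool.Agent.Q78.SG.Seg

set_option autoImplicit false

/-!
# Segre's conjecture: the standard form is outside of the subdivision closure

`System d v` (`Pool.Agent.Q78.SG.Sub.System`; degree `d`, multiset `v` of multiplicities) is the
smallest relation which contains

* the standard systems at `≥ 4` points with at most nine multiplicities larger than `2`;
* the standard systems at `≥ 4` points such that, for some `m ≥ 1` and
  `B = 2 ^ 17 (4 m ^ 2 + 8 m + 5) ^ 4`, at most five multiplicities are larger than `m` or those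
  larger than `m` have a sum `≤ 2 d - (4 m ^ 2 + 8 m + 5)`, and `d ≥ B` or at least `B + 3`
  multiplicities are not zero;
* the systems of degree `3 D` with `k` multiplicities `D` and `r` blocks of `M + 4` multiplicities,
  in each block one or two consecutive numbers, `k + r M = 9`, if all blocks have
  `≤ M (D + 1).choose 2` conditions, or all have more;

and is closed under the subdivision of one multiplicity `b` into the integral parts of
`(2 b - 1) / 4, 2 b / 4, (2 b + 1) / 4, (2 b + 2) / 4`, under that of `N` multiplicities into
`b / 2, b / 2, (b + 1) / 2, (b + 1) / 2` each if the systems with `N` multiplicities `b` and with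
`N` multiplicities `b + 1` are in it, and under the passage to a larger (smaller) degree if the
number of conditions is at most (at least) the number of forms.

Let `(d; w)` be any class and let the points be general. If `(d; w)` is in the closure, then it is
not special. If it is special, then twice a `(-1)`-curve is a fixed part, or, after the removal of
disjoint `(-1)`-curves, each taken once, and finitely many quadratic transformations, it is a special
standard class of the same dimension outside of the closure.
-/

namespace Pool.Agent.Results.MP_cfebfb_ag.SegreSubdivisions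

open MvPolynomial Pool.Agent.TH167.SHDefs Pool.Agent.Q78.SG.Sub
open Pool.Agent.Q310.FP (Standard)

theorem result (n : ℕ) (hn : 4 ≤ n) (d : ℕ) (w : Fin n → ℕ) :
    ∃ F : MvPolynomial (Fin n × Fin 2) ℂ, F ≠ 0 ∧
      ∀ P : Fin n → Fin 2 → ℂ, eval (fun ij : Fin n × Fin 2 => P ij.1 ij.2) F ≠ 0 →
        (System d (mults w) → ¬ Special P d w) ∧
        (Special P d w →
          (∃ (G : MvPolynomial (Fin 3) ℂ) (e : ℕ) (u : Fin n → ℕ),
            MinusOne P G e u ∧ inter d w e u ≤ -2 ∧ ∀ f ∈ sys P d w, G ^ 2 ∣ f) ∨
          ∃ (d'' : ℕ) (w'' : Fin n → ℕ) (k : ℕ) (G : Fin k → MvPolynomial (Fin 3) ℂ)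
            (e : Fin k → ℕ) (u : Fin k → Fin n → ℕ) (d' : ℕ) (w' : Fin n → ℕ),
            Decomp P d w d'' w'' G e u (fun _ => 1) ∧
            Relation.ReflTransGen Quadratic (d'', w'') (d', w') ∧ Standard d' w' ∧
            dimL P d' w' = dimL P d w ∧ Special P d' w' ∧ ¬ System d' (mults w')) := by
  obtain ⟨F1, hF1, hF1'⟩ : ∃ F : MvPolynomial (Fin n × Fin 2) ℂ, F ≠ 0 ∧
      ∀ P : Fin n → Fin 2 → ℂ, eval (fun ij : Fin n × Fin 2 => P ij.1 ij.2) F ≠ 0 →
        (System d (mults w) → ¬ Special P d w) := by
    by_cases h : System d (mults w)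
    · obtain ⟨F, hF, hF'⟩ := (Pool.Agent.Q78.SG.Seg.ge_of_system h).general
      refine ⟨F, hF, fun P hP _ => ?_⟩
      have h1 := hF' P hP
      unfold Special
      omega
    · exact ⟨1, one_ne_zero, fun P _ h' => absurd h' h⟩
  obtain ⟨F, hF, hF'⟩ := Pool.Agent.Q310.FP.segre_rem hn
    (fun d w h => Pool.Agent.Q78.SG.Seg.or_system d w h) d w
  refine ⟨F1 * F, mul_ne_zero hF1 hF, fun P hP => ?_⟩
  rw [map_mul] at hP
  exact ⟨hF1' P (left_ne_zero_of_mul hP), hF' P (right_ne_zero_of_mul hP)⟩

end Pool.Agent.Results.MP_cfebfb_ag.SegreSubdivisions
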